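import Pool.Agent.P8H15.FG.Stm2

/-!
# Project FG, SAX: the averaged singular series for odd `k`
-/

set_option autoImplicit false

namespace Pool.Agent.P8H17.FG

open Finset Pool.Agent.P8H15.FG
open Pool.Agent.H560R3.GB (sing C₂)

theorem primeFactors_two_mul {k : ℕ} (hk : 1 ≤ k) :
    (2 * k).primeFactors = insert 2 k.primeFactors := by
  rw [Nat.primeFactors_mul (by norm_num) (by omega), Nat.Prime.primeFactors Nat.prime_two]
  rfl

theorem two_notMem {k : ℕ} (ho : ¬ Even k) : 2 ∉ k.primeFactors := fun h =>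
  ho (even_iff_two_dvd.2 (Nat.dvd_of_mem_primeFactors h))

theorem cq_two {k : ℕ} (hk : 1 ≤ k) (ho : ¬ Even k) : CQ (2 * k) = CQ k + Real.log 2 := by
  unfold CQ
  rw [primeFactors_two_mul hk, Finset.sum_insert (two_notMem ho)]
  norm_num
  ring

theorem rr_nonneg (k : ℕ) : 0 ≤ RR k := Finset.prod_nonneg fun _ _ => sq_nonneg _

theorem rr_two {k : ℕ} (hk : 1 ≤ k) (ho : ¬ Even k) : RR (2 * k) ≤ 4 * RR k := by
  unfold RR
  rw [primeFactors_two_mul hk, Finset.prod_insert (two_notMem ho)]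
  refine mul_le_mul_of_nonneg_right ?_ (Finset.prod_nonneg fun p _ => sq_nonneg _)
  have h1 : (1 : ℝ) ≤ Real.sqrt ((2 : ℕ) : ℝ) := by
    rw [Real.one_le_sqrt]
    norm_num
  have h2 : 1 / Real.sqrt ((2 : ℕ) : ℝ) ≤ 1 := by
    rw [div_le_one (by linarith)]
    exact h1
  have h0 : 0 ≤ 1 / Real.sqrt ((2 : ℕ) : ℝ) := by positivity
  nlinarith

theorem sum_even {k X : ℕ} (hk : 1 ≤ k) (ho : ¬ Even k) :
    ∑ j ∈ Icc 1 (X / k), sg (j * k) * ((X : ℝ) - j * k) =
      ∑ j ∈ Icc 1 (X / (2 * k)), sing (j * (2 * k)) * ((X : ℝ) - j * ((2 * k : ℕ) : ℝ)) := by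
  symm
  rw [← Finset.sum_filter_add_sum_filter_not (Icc 1 (X / k)) (fun j => Even j)]
  have h0 : ∑ j ∈ (Icc 1 (X / k)).filter (fun j => ¬ Even j), sg (j * k) * ((X : ℝ) - j * k) = 0 := by
    refine Finset.sum_eq_zero fun j hj => ?_
    have hj' := (Finset.mem_filter.1 hj).2
    have h1 : ¬ Even (j * k) := by
      rw [Nat.even_mul]
      tauto
    rw [sg, if_neg h1, zero_mul]
  rw [h0, add_zero]
  refine Finset.sum_nbij (fun j => 2 * j) ?_ ?_ ?_ ?_
  · intro j hj
    rw [mem_Icc] at hj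
    rw [mem_filter, mem_Icc]
    refine ⟨⟨by omega, ?_⟩, even_two_mul j⟩
    have h1 := (Nat.le_div_iff_mul_le (by omega)).1 hj.2
    rw [Nat.le_div_iff_mul_le (by omega)]
    calc 2 * j * k = j * (2 * k) := by ring
      _ ≤ X := h1
  · intro a _ b _ hab
    simpa using hab
  · intro j hj
    rw [mem_coe, mem_filter, mem_Icc] at hj
    obtain ⟨⟨h1, h2⟩, m, hm⟩ := hj
    refine ⟨m, ?_, by simp only; omega⟩
    rw [mem_coe, mem_Icc]
    refine ⟨by omega, ?_⟩
    rw [Nat.le_div_iff_mul_le (by omega)] at h2 ⊢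
    calc m * (2 * k) = j * k := by rw [hm]; ring
      _ ≤ X := h2
  · intro j _
    have h1 : 2 * j * k = j * (2 * k) := by ring
    rw [h1, sg, if_pos ((even_two_mul k).mul_left j)]
    push_cast
    ring

theorem sax : S_SAW → S_SAX := by
  rintro ⟨C, hC, h⟩
  refine ⟨8 * C, by positivity, fun X k hk hX => ?_⟩
  have hX0 : (0 : ℝ) < X := by exact_mod_cast hX
  have hk0 : (0 : ℝ) < k := by exact_mod_cast hk
  have hr : 0 ≤ ((k : ℝ) / X) ^ (1 / 4 : ℝ) := by positivity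
  by_cases he : Even k
  · have h1 := h X k hk he hX
    have h2 : ∑ j ∈ Icc 1 (X / k), sg (j * k) * ((X : ℝ) - j * k) =
        ∑ j ∈ Icc 1 (X / k), sing (j * k) * ((X : ℝ) - j * k) := by
      refine Finset.sum_congr rfl fun j _ => ?_
      rw [sg, if_pos (he.mul_left j)]
    rw [h2]
    refine h1.trans ?_
    have h3 : 0 ≤ C * X * RR k * ((k : ℝ) / X) ^ (1 / 4 : ℝ) :=
      mul_nonneg (mul_nonneg (by positivity) (rr_nonneg k)) hr
    linarith
  · have h1 := h X (2 * k) (by omega) (even_two_mul k) hX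
    rw [← sum_even hk he, cq_two hk he, Nat.totient_two_mul_of_odd (Nat.not_even_iff_odd.1 he)] at h1
    have h4 : Real.log ((X : ℝ) / ((2 * k : ℕ) : ℝ)) = Real.log (X / k) - Real.log 2 := by
      rw [← Real.log_div (by positivity) (by norm_num)]
      congr 1
      push_cast
      field_simp
    rw [h4] at h1
    have h5 : (X : ℝ) * (Real.log (X / k) - Real.log 2 + (CQ k + Real.log 2) - 1) =
        X * (Real.log (X / k) + CQ k - 1) := by ring
    rw [h5] at h1
    refine h1.trans ?_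
    have h6 : (((2 * k : ℕ) : ℝ) / X) ^ (1 / 4 : ℝ) ≤ 2 * ((k : ℝ) / X) ^ (1 / 4 : ℝ) := by
      have e1 : ((2 * k : ℕ) : ℝ) / X = 2 * ((k : ℝ) / X) := by
        push_cast
        ring
      rw [e1, Real.mul_rpow (by norm_num) (by positivity)]
      refine mul_le_mul_of_nonneg_right ?_ hr
      calc (2 : ℝ) ^ (1 / 4 : ℝ) ≤ (2 : ℝ) ^ (1 : ℝ) :=
            Real.rpow_le_rpow_of_exponent_le (by norm_num) (by norm_num)
        _ = 2 := Real.rpow_one 2
    calc C * X * RR (2 * k) * (((2 * k : ℕ) : ℝ) / X) ^ (1 / 4 : ℝ)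
        ≤ C * X * (4 * RR k) * (2 * ((k : ℝ) / X) ^ (1 / 4 : ℝ)) := by
          refine mul_le_mul (mul_le_mul_of_nonneg_left (rr_two hk he) (by positivity)) h6
            (by positivity) ?_
          exact mul_nonneg (by positivity) (mul_nonneg (by norm_num) (rr_nonneg k))
      _ = 8 * C * X * RR k * ((k : ℝ) / X) ^ (1 / 4 : ℝ) := by ring

end Pool.Agent.P8H17.FG
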